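import Pool.Agent.W960.HC.Defs

/-! Quarter turns of the unperturbed system, by an explicit parametrisation
`x = X sin θ`, `y = X cos θ ω(θ)` of the level curve. -/

set_option autoImplicit false

open Set Topology Filter MeasureTheory

namespace Pool.Agent.W70.HC

open Pool.Agent.W960.HC

/-- the level function in the variable `s = x²` -/
noncomputable def ff (κ s : ℝ) : ℝ := 1 + s - κ * Real.exp s

lemma hasDerivAt_ff (κ s : ℝ) : HasDerivAt (ff κ) (1 - κ * Real.exp s) s := by
  have h := ((hasDerivAt_id s).const_add 1).sub ((Real.hasDerivAt_exp s).const_mul κ)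
  exact h

lemma exp_mul (X : ℝ) : Real.exp (-X ^ 2) * Real.exp (X ^ 2) = 1 := by
  rw [← Real.exp_add]; simp

lemma ff_X (X : ℝ) : ff (kp X) (X ^ 2) = 0 := by
  unfold ff kp
  linear_combination (-(1 + X ^ 2)) * exp_mul X

lemma ff_pos {X s : ℝ} (hs0 : 0 ≤ s) (hs : s < X ^ 2) : 0 < ff (kp X) s := by
  have h1 : (X ^ 2 - s) + 1 < Real.exp (X ^ 2 - s) := Real.add_one_lt_exp (by linarith)
  have h2 : Real.exp (X ^ 2 - s) * (Real.exp (-X ^ 2) * Real.exp s) = 1 := by
    rw [← Real.exp_add, ← Real.exp_add]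
    have : X ^ 2 - s + (-X ^ 2 + s) = 0 := by ring
    rw [this, Real.exp_zero]
  have h3 : 0 < Real.exp (X ^ 2 - s) := Real.exp_pos _
  have h4 : Real.exp (X ^ 2 - s) * ff (kp X) s
      = (1 + s) * Real.exp (X ^ 2 - s) - (1 + X ^ 2) := by
    unfold ff kp
    linear_combination (-(1 + X ^ 2)) * h2
  have h5 : 0 < Real.exp (X ^ 2 - s) * ff (kp X) s := by
    rw [h4]; nlinarith [mul_nonneg hs0 (by linarith : (0:ℝ) ≤ X ^ 2 - s)]
  exact (mul_pos_iff_of_pos_left h3).1 h5

/-- divided difference -/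
noncomputable def DD (X s : ℝ) : ℝ := dslope (ff (kp X)) (X ^ 2) s

lemma continuous_DD (X : ℝ) : Continuous (DD X) := by
  have hc : Continuous (ff (kp X)) :=
    continuous_iff_continuousAt.2 fun s => (hasDerivAt_ff _ s).continuousAt
  have h := (continuousOn_dslope (f := ff (kp X)) (a := X ^ 2) (s := (univ : Set ℝ))
    univ_mem).2 ⟨hc.continuousOn, (hasDerivAt_ff _ _).differentiableAt⟩
  exact continuousOn_univ.1 h

lemma DD_mul (X s : ℝ) : (s - X ^ 2) * DD X s = ff (kp X) s := by
  have h := sub_smul_dslope (ff (kp X)) (X ^ 2) s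
  rw [ff_X, sub_zero] at h
  exact h

lemma DD_neg {X s : ℝ} (hX : 0 < X) (hs0 : 0 ≤ s) (hs : s ≤ X ^ 2) : DD X s < 0 := by
  rcases hs.eq_or_lt with h | h
  · have h1 : DD X s = 1 - kp X * Real.exp (X ^ 2) := by
      unfold DD
      rw [h, dslope_same, (hasDerivAt_ff _ _).deriv]
    have h2 : kp X * Real.exp (X ^ 2) = 1 + X ^ 2 := by
      unfold kp
      linear_combination (1 + X ^ 2) * exp_mul X
    rw [h1, h2]
    have : 0 < X ^ 2 := by positivity
    linarith
  · have h1 := DD_mul X s
    have h2 := ff_pos hs0 h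
    by_contra hc
    push Not at hc
    nlinarith [mul_nonneg (by linarith : (0:ℝ) ≤ X ^ 2 - s) hc]

lemma sin_mem (X θ : ℝ) : 0 ≤ (X * Real.sin θ) ^ 2 ∧ (X * Real.sin θ) ^ 2 ≤ X ^ 2 := by
  refine ⟨by positivity, ?_⟩
  nlinarith [Real.sin_sq_add_cos_sq θ, sq_nonneg (X * Real.cos θ)]

/-- angular velocity -/
noncomputable def om (X θ : ℝ) : ℝ := Real.sqrt (-DD X ((X * Real.sin θ) ^ 2))

lemma om_pos {X : ℝ} (hX : 0 < X) (θ : ℝ) : 0 < om X θ := by
  unfold om
  apply Real.sqrt_pos.2
  have := DD_neg hX (sin_mem X θ).1 (sin_mem X θ).2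
  linarith

lemma continuous_om (X : ℝ) : Continuous (om X) := by
  unfold om
  exact Real.continuous_sqrt.comp ((continuous_DD X).comp
    ((continuous_const.mul Real.continuous_sin).pow 2)).neg

lemma om_sq {X : ℝ} (hX : 0 < X) (θ : ℝ) : om X θ ^ 2 = -DD X ((X * Real.sin θ) ^ 2) := by
  unfold om
  apply Real.sq_sqrt
  have := DD_neg hX (sin_mem X θ).1 (sin_mem X θ).2
  linarith

lemma y_sq {X : ℝ} (hX : 0 < X) (θ : ℝ) :
    (X * Real.cos θ * om X θ) ^ 2 = ff (kp X) ((X * Real.sin θ) ^ 2) := by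
  rw [← DD_mul, mul_pow, om_sq hX]
  linear_combination (-X ^ 2 * DD X ((X * Real.sin θ) ^ 2)) * Real.sin_sq_add_cos_sq θ

/-- time as a function of the angle -/
noncomputable def Ph (X θ : ℝ) : ℝ := ∫ s in (0:ℝ)..θ, (om X s)⁻¹

lemma hasDerivAt_Ph {X : ℝ} (hX : 0 < X) (θ : ℝ) : HasDerivAt (Ph X) (om X θ)⁻¹ θ := by
  have hc : Continuous fun s => (om X s)⁻¹ := (continuous_om X).inv₀ fun s => (om_pos hX s).ne'
  exact (hc.integral_hasStrictDerivAt 0 θ).hasDerivAt

lemma om_bdd (X : ℝ) : ∃ B > 0, ∀ θ, om X θ ≤ B := by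
  obtain ⟨C, hC⟩ := (isCompact_Icc (a := (0:ℝ)) (b := X ^ 2)).exists_bound_of_continuousOn
    (continuous_DD X).continuousOn
  refine ⟨Real.sqrt C + 1, by positivity, fun θ => ?_⟩
  have h1 := hC _ ⟨(sin_mem X θ).1, (sin_mem X θ).2⟩
  rw [Real.norm_eq_abs] at h1
  have h2 : -DD X ((X * Real.sin θ) ^ 2) ≤ C := le_trans (neg_le_abs _) h1
  have h3 : om X θ ≤ Real.sqrt C := Real.sqrt_le_sqrt h2
  linarith

lemma exists_theta {X : ℝ} (hX : 0 < X) : ∃ θ : ℝ → ℝ, StrictMono θ ∧
    (∀ t, HasDerivAt θ (om X (θ t)) t) ∧ (∀ s, θ (Ph X s) = s) := by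
  obtain ⟨B, hB, hBo⟩ := om_bdd X
  have hmono : StrictMono (Ph X) := by
    apply strictMono_of_deriv_pos
    intro s
    rw [(hasDerivAt_Ph hX s).deriv]
    exact inv_pos.2 (om_pos hX s)
  have hcont : Continuous (Ph X) :=
    continuous_iff_continuousAt.2 fun s => (hasDerivAt_Ph hX s).continuousAt
  have hg : Monotone fun s => Ph X s - B⁻¹ * s := by
    have hd : ∀ s, HasDerivAt (fun s => Ph X s - B⁻¹ * s) ((om X s)⁻¹ - B⁻¹ * 1) s := fun s =>
      (hasDerivAt_Ph hX s).sub ((hasDerivAt_id s).const_mul B⁻¹)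
    apply monotone_of_deriv_nonneg (fun s => (hd s).differentiableAt)
    intro s
    rw [(hd s).deriv, mul_one, sub_nonneg]
    exact inv_anti₀ (om_pos hX s) (hBo s)
  have h0 : Ph X 0 = 0 := by simp [Ph]
  have htop : Tendsto (Ph X) atTop atTop := by
    have h1 : Tendsto (fun s : ℝ => B⁻¹ * s) atTop atTop :=
      tendsto_id.const_mul_atTop (inv_pos.2 hB)
    refine tendsto_atTop_mono' _ ?_ h1
    filter_upwards [eventually_ge_atTop (0:ℝ)] with s hs
    have := hg hs
    simp only [h0, mul_zero, sub_zero] at this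
    linarith
  have hbot : Tendsto (Ph X) atBot atBot := by
    have h1 : Tendsto (fun s : ℝ => B⁻¹ * s) atBot atBot :=
      tendsto_id.const_mul_atBot (inv_pos.2 hB)
    refine tendsto_atBot_mono' _ ?_ h1
    filter_upwards [eventually_le_atBot (0:ℝ)] with s hs
    have := hg hs
    simp only [h0, mul_zero, sub_zero] at this
    linarith
  have hsurj : Function.Surjective (Ph X) := hcont.surjective htop hbot
  let e := hmono.orderIsoOfSurjective (Ph X) hsurj
  have he : ∀ s, e s = Ph X s := fun s => rfl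
  refine ⟨e.symm, e.symm.strictMono, ?_, ?_⟩
  · intro t
    have h := HasDerivAt.of_local_left_inverse (f := Ph X) (g := e.symm) (a := t)
      (f' := (om X (e.symm t))⁻¹) e.symm.continuous.continuousAt (hasDerivAt_Ph hX _)
      (inv_ne_zero (om_pos hX _).ne') (Eventually.of_forall fun y => by
        rw [← he]; exact e.apply_symm_apply y)
    rw [inv_inv] at h
    exact h
  · intro s
    rw [← he]; exact e.symm_apply_apply s

/-- square roots of differentiable functions at nonzero points -/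
lemma hasDerivAt_of_sq {y : ℝ → ℝ} {t d : ℝ} (hc : ContinuousAt y t) (h0 : y t ≠ 0)
    (h : HasDerivAt (fun s => y s ^ 2) (2 * y t * d) t) : HasDerivAt y d t := by
  rw [hasDerivAt_iff_tendsto_slope] at h ⊢
  have h1 : Tendsto (fun s => y s + y t) (𝓝[≠] t) (𝓝 (y t + y t)) :=
    (hc.tendsto.mono_left nhdsWithin_le_nhds).add_const _
  have hne : y t + y t ≠ 0 := by
    intro hh; apply h0; linarith
  have h2 := h.div h1 hne
  have h3 : 2 * y t * d / (y t + y t) = d := by
    field_simp; ring
  rw [h3] at h2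
  refine h2.congr' ?_
  filter_upwards [h1.eventually_ne hne] with s hs
  simp only [slope, Pi.div_apply, vsub_eq_sub, smul_eq_mul]
  field_simp
  ring

/-- extension of a derivative to an isolated point -/
lemma hasDerivAt_ext {f g : ℝ → ℝ} {x : ℝ} (hd : ∀ᶠ y in 𝓝[≠] x, HasDerivAt f (g y) y)
    (hf : ContinuousAt f x) (hg : ContinuousAt g x) : HasDerivAt f (g x) x := by
  have hR : ∀ᶠ y in 𝓝[>] x, HasDerivAt f (g y) y :=
    hd.filter_mono (nhdsWithin_mono _ fun y hy => ne_of_gt hy)
  have hL : ∀ᶠ y in 𝓝[<] x, HasDerivAt f (g y) y :=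
    hd.filter_mono (nhdsWithin_mono _ fun y hy => ne_of_lt hy)
  have A : HasDerivWithinAt f (g x) (Ici x) x := by
    apply hasDerivWithinAt_Ici_of_tendsto_deriv (s := {y | HasDerivAt f (g y) y})
      (fun y hy => hy.differentiableAt.differentiableWithinAt) hf.continuousWithinAt hR
    have : Tendsto g (𝓝[>] x) (𝓝 (g x)) := hg.tendsto.mono_left nhdsWithin_le_nhds
    refine this.congr' ?_
    filter_upwards [hR] with y hy
    exact hy.deriv.symm
  have B : HasDerivWithinAt f (g x) (Iic x) x := by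
    apply hasDerivWithinAt_Iic_of_tendsto_deriv (s := {y | HasDerivAt f (g y) y})
      (fun y hy => hy.differentiableAt.differentiableWithinAt) hf.continuousWithinAt hL
    have : Tendsto g (𝓝[<] x) (𝓝 (g x)) := hg.tendsto.mono_left nhdsWithin_le_nhds
    refine this.congr' ?_
    filter_upwards [hL] with y hy
    exact hy.deriv.symm
  simpa using B.union A

/-- the unperturbed system has quarter turns -/
theorem quarter (a c : ℝ) {X : ℝ} (hX : 0 < X) : ∃ T > 0, ∃ γ : ℝ → ℝ × ℝ,
    γ 0 = (0, et X) ∧ γ T = (0, -et X) ∧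
    (∀ t ∈ Icc 0 T, HasDerivAt γ (fld a c 0 (γ t)) t) ∧
    (∀ t ∈ Icc 0 T, kap (γ t) = kp X) ∧ (∀ t ∈ Icc 0 T, ‖γ t‖ ≤ 1 + X) ∧
    (∀ t ∈ Ioo 0 T, 0 < (γ t).1) ∧ ∫ t in (0:ℝ)..T, G a c (γ t) = 2 * Mel a c X := by
  obtain ⟨θ, hmono, hθ, hinv⟩ := exists_theta hX
  have hPh0 : Ph X 0 = 0 := by simp [Ph]
  have hθ0 : θ 0 = 0 := by
    have := hinv 0
    rwa [hPh0] at this
  have hcθ : Continuous θ := continuous_iff_continuousAt.2 fun t => (hθ t).continuousAt
  set T := Ph X Real.pi with hT
  set T1 := Ph X (Real.pi / 2) with hT1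
  have hθT : θ T = Real.pi := hinv _
  have hθT1 : θ T1 = Real.pi / 2 := hinv _
  have hTpos : 0 < T := by
    rw [← hmono.lt_iff_lt, hθ0, hθT]; exact Real.pi_pos
  have hT1pos : 0 < T1 := by
    rw [← hmono.lt_iff_lt, hθ0, hθT1]; exact Real.pi_div_two_pos
  have hT1T : T1 < T := by
    rw [← hmono.lt_iff_lt, hθT1, hθT]; linarith [Real.pi_pos]
  let x : ℝ → ℝ := fun t => X * Real.sin (θ t)
  let y : ℝ → ℝ := fun t => X * Real.cos (θ t) * om X (θ t)
  have hx : ∀ t, HasDerivAt x (y t) t := by
    intro t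
    have h1 := ((Real.hasDerivAt_sin (θ t)).comp t (hθ t)).const_mul X
    have h2 : y t = X * (Real.cos (θ t) * om X (θ t)) := by simp only [y]; ring
    rw [h2]
    exact h1
  have hcx : Continuous x := continuous_iff_continuousAt.2 fun t => (hx t).continuousAt
  have hcy : Continuous y := by
    exact (continuous_const.mul (Real.continuous_cos.comp hcθ)).mul ((continuous_om X).comp hcθ)
  have hy2 : ∀ t, y t ^ 2 = ff (kp X) (x t ^ 2) := fun t => y_sq hX (θ t)
  have hff : ∀ s, ff (kp X) s = 1 + s - kp X * Real.exp s := fun s => rfl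
  let v : ℝ → ℝ := fun t => -x t ^ 3 + x t * y t ^ 2
  have hv : ∀ t, v t = x t * (1 - kp X * Real.exp (x t ^ 2)) := by
    intro t
    simp only [v]
    rw [hy2, hff]; ring
  have hcv : Continuous v := ((hcx.pow 3).neg).add (hcx.mul (hcy.pow 2))
  have hyd0 : ∀ t, y t ≠ 0 → HasDerivAt y (v t) t := by
    intro t ht
    refine hasDerivAt_of_sq hcy.continuousAt ht ?_
    have h1 : HasDerivAt (fun s => ff (kp X) (x s ^ 2))
        ((1 - kp X * Real.exp (x t ^ 2)) * ((2:ℕ) * x t ^ (2 - 1) * y t)) t :=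
      HasDerivAt.comp (h := fun s => x s ^ 2) t (hasDerivAt_ff (kp X) (x t ^ 2)) ((hx t).pow 2)
    have h2 : (fun s => y s ^ 2) = fun s => ff (kp X) (x s ^ 2) := funext hy2
    rw [h2]
    convert h1 using 1
    rw [hv]; push_cast; ring
  have hyd : ∀ t, HasDerivAt y (v t) t := by
    intro t
    by_cases ht : y t = 0
    · refine hasDerivAt_ext ?_ hcy.continuousAt hcv.continuousAt
      have hcos : Real.cos (θ t) = 0 := by
        simp only [y] at ht
        have := (om_pos hX (θ t)).ne'
        rcases mul_eq_zero.1 ht with h | h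
        · rcases mul_eq_zero.1 h with h | h
          · exact absurd h hX.ne'
          · exact h
        · exact absurd h this
      have hsin : Real.sin (θ t) ≠ 0 := by
        intro h
        have := Real.sin_sq_add_cos_sq (θ t)
        rw [h, hcos] at this
        norm_num at this
      have hd := (Real.hasDerivAt_cos (θ t)).comp t (hθ t)
      have hne : -Real.sin (θ t) * om X (θ t) ≠ 0 :=
        mul_ne_zero (neg_ne_zero.2 hsin) (om_pos hX _).ne'
      have hev := hd.eventually_ne (c := 0) hne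
      filter_upwards [hev] with s hs
      apply hyd0
      simp only [y]
      exact mul_ne_zero (mul_ne_zero hX.ne' hs) (om_pos hX _).ne'
    · exact hyd0 t ht
  have het : X * om X 0 = et X := by
    have h1 : (X * om X 0) ^ 2 = 1 - kp X := by
      have := y_sq hX 0
      rw [Real.cos_zero, Real.sin_zero, mul_one, mul_zero, hff] at this
      rw [this]; simp
    unfold et
    rw [← h1, Real.sqrt_sq (mul_pos hX (om_pos hX 0)).le]
  have hompi : om X Real.pi = om X 0 := by
    unfold om; rw [Real.sin_pi, Real.sin_zero]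
  have hexp : ∀ t, Real.exp (-x t ^ 2) * Real.exp (x t ^ 2) = 1 := fun t => exp_mul (x t)
  refine ⟨T, hTpos, fun t => (x t, y t), ?_, ?_, ?_, ?_, ?_, ?_, ?_⟩
  · simp only [x, y, hθ0, Real.sin_zero, Real.cos_zero, mul_zero, mul_one, het]
  · simp only [x, y, hθT, Real.sin_pi, Real.cos_pi, mul_zero, hompi]
    rw [← het]; simp
  · intro t _
    have h := (hx t).prodMk (hyd t)
    have : fld a c 0 (x t, y t) = (y t, v t) := by
      simp only [fld, v]; simp
    rw [this]
    exact h
  · intro t _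
    simp only [kap]
    rw [hy2, hff]
    linear_combination (kp X) * hexp t
  · intro t _
    have hx1 : x t ^ 2 ≤ X ^ 2 := (sin_mem X (θ t)).2
    rw [Prod.norm_def, sup_le_iff, Real.norm_eq_abs, Real.norm_eq_abs]
    constructor
    · simp only
      have := abs_le_of_sq_le_sq hx1 hX.le
      linarith
    · simp only
      have h1 : y t ^ 2 ≤ (1 + X) ^ 2 := by
        rw [hy2, hff]
        have hk : 0 ≤ kp X * Real.exp (x t ^ 2) := by unfold kp; positivity
        nlinarith
      exact abs_le_of_sq_le_sq' h1 (by linarith) |> fun h => abs_le.2 h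
  · intro t ht
    simp only [x]
    apply mul_pos hX
    apply Real.sin_pos_of_pos_of_lt_pi
    · rw [← hθ0]; exact hmono ht.1
    · rw [← hθT]; exact hmono ht.2
  · let u : ℝ → ℝ := fun x => Real.exp (-x ^ 2) * Y (kp X) x * (a + c * x ^ 2 + Y (kp X) x ^ 2)
    have hcY : Continuous (Y (kp X)) := by
      unfold Y; fun_prop
    have hcu : Continuous u := by
      have h1 : Continuous fun x : ℝ => Real.exp (-x ^ 2) := by fun_prop
      have h2 : Continuous fun x : ℝ => a + c * x ^ 2 := by fun_prop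
      exact (h1.mul hcY).mul (h2.add (hcY.pow 2))
    have hYt : ∀ t, Y (kp X) (x t) = |y t| := by
      intro t
      unfold Y
      rw [← hff, ← hy2, Real.sqrt_sq_eq_abs]
    have hcG : Continuous fun t => G a c (x t, y t) := by
      simp only [G]; fun_prop
    have e1 : ∫ t in (0:ℝ)..T1, G a c (x t, y t) = Mel a c X := by
      have h1 : ∫ t in (0:ℝ)..T1, G a c (x t, y t) = ∫ t in (0:ℝ)..T1, (u ∘ x) t * y t := by
        apply intervalIntegral.integral_congr
        intro t ht
        rw [uIcc_of_le hT1pos.le] at ht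
        have hθt0 : 0 ≤ θ t := by rw [← hθ0]; exact hmono.monotone ht.1
        have hθt1 : θ t ≤ Real.pi / 2 := by rw [← hθT1]; exact hmono.monotone ht.2
        have hy0 : 0 ≤ y t := by
          simp only [y]
          have := Real.cos_nonneg_of_neg_pi_div_two_le_of_le
            (by linarith [Real.pi_pos] : -(Real.pi / 2) ≤ θ t) hθt1
          have := (om_pos hX (θ t)).le
          positivity
        simp only [Function.comp, u, G, hYt, abs_of_nonneg hy0]
        ring
      rw [h1, intervalIntegral.integral_comp_mul_deriv (fun t _ => hx t) hcy.continuousOn hcu]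
      have hx0 : x 0 = 0 := by simp [x, hθ0]
      have hx1 : x T1 = X := by simp [x, hθT1]
      rw [hx0, hx1]
      rfl
    have e2 : ∫ t in T1..T, G a c (x t, y t) = Mel a c X := by
      have h1 : ∫ t in T1..T, G a c (x t, y t) = ∫ t in T1..T, -((u ∘ x) t * y t) := by
        apply intervalIntegral.integral_congr
        intro t ht
        rw [uIcc_of_le hT1T.le] at ht
        have hθt0 : Real.pi / 2 ≤ θ t := by rw [← hθT1]; exact hmono.monotone ht.1
        have hθt1 : θ t ≤ Real.pi := by rw [← hθT]; exact hmono.monotone ht.2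
        have hy0 : y t ≤ 0 := by
          simp only [y]
          have h2 := Real.cos_nonpos_of_pi_div_two_le_of_le hθt0 (by linarith [Real.pi_pos])
          have h3 := (om_pos hX (θ t)).le
          exact mul_nonpos_of_nonpos_of_nonneg (mul_nonpos_of_nonneg_of_nonpos hX.le h2) h3
        simp only [Function.comp, u, G, hYt, abs_of_nonpos hy0]
        ring
      rw [h1, intervalIntegral.integral_neg,
        intervalIntegral.integral_comp_mul_deriv (fun t _ => hx t) hcy.continuousOn hcu]
      have hx0 : x T = 0 := by simp [x, hθT]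
      have hx1 : x T1 = X := by simp [x, hθT1]
      rw [hx0, hx1, intervalIntegral.integral_symm, neg_neg]
      rfl
    rw [← intervalIntegral.integral_add_adjacent_intervals
      (hcG.intervalIntegrable 0 T1) (hcG.intervalIntegrable T1 T), e1, e2]
    ring

end Pool.Agent.W70.HC
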